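import Pool.Agent.H78DS.Main
import Pool.Agent.H78DS.Comp

namespace Pool.Agent.Results.MP_91b64b_lc.GapVersusExact

open Pool.Agent.H78DS

/-- For every function `F ≥ 1` with a computable majorant: exact `k`-Dominating Set reduces to `GapDS_F` by a many-one
reduction in time `f(k) |x| ^ o(k)`; hence `GapDS_F` is solvable in time `f(k) |x| ^ o(k)` iff exact `k`-Dominating Set is,
and if `GapDS_F` is fixed-parameter tractable then exact `k`-Dominating Set is solvable in time `f(k) |x| ^ o(k)`. -/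
theorem result (F : ℕ → ℝ) (hF : ∀ k, 1 ≤ F k)
    (hc : ∃ F' : ℕ → ℕ, Computable F' ∧ ∀ k, F k ≤ F' k) :
    SubRed kDS (GapDS F) ∧ (InSub (GapDS F) ↔ InSub kDS) ∧ (InFPT (GapDS F) → InSub kDS) := by
  obtain ⟨F', hF', hle⟩ := hc
  have hred := subRed F F' hF' hle
  have h1 : InSub (GapDS F) → InSub kDS := fun h => InSub.of_subRed hred h
  refine ⟨hred, ⟨h1, ?_⟩, fun h => h1 (InSub.of_inFPT h)⟩
  rintro ⟨h, e, A, hh, he, hlim, hA, H⟩
  refine ⟨h, e, A, hh, he, hlim, hA, fun x => ⟨(H x).1, fun hno => (H x).2 ?_⟩⟩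
  intro hle'
  have h2 : F x.2.2 * x.2.2 < gam x := hno
  have h3 : (gam x : ℝ) ≤ x.2.2 := by exact_mod_cast hle'
  have h4 : (1 : ℝ) * x.2.2 ≤ F x.2.2 * x.2.2 := mul_le_mul_of_nonneg_right (hF _) (Nat.cast_nonneg _)
  linarith

end Pool.Agent.Results.MP_91b64b_lc.GapVersusExact
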