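import Pool.Agent.H78DS.Asym

namespace Pool.Agent.Results.MP_91b64b_lc.LocalReductionBarrier

open Pool.Agent.H78DS

/-- Barrier for element-local gap reductions from Set Cover (with `n` sets and `n` elements) to gap Set Cover with
ratio `F`: at every image parameter `k'` we have `⌊F k'⌋ δ ≤ C`, if the image has at most `f k * n ^ C` elements and every
new element depends on at most `f k * n ^ (1 - δ)` old elements. -/
theorem result (F : ℕ → ℝ) (hF : ∀ k, 1 ≤ F k) (C C' δ : ℝ) (hδ : 0 < δ) (g : ℕ → ℕ) (f : ℕ → ℝ)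
    (k : ℕ) (hk : 1 ≤ k) :
    ∃ n₀ : ℕ, ∀ n : ℕ, n₀ ≤ n → ∀ k' N M ℓ : ℕ, k' ≤ g k →
      (N : ℝ) ≤ f k * (n : ℝ) ^ C' → (M : ℝ) ≤ f k * (n : ℝ) ^ C →
      (ℓ : ℝ) ≤ f k * (n : ℝ) ^ (1 - δ) →
      ∀ Φ : (Fin n → Fin n → Prop) → (Fin N → Fin M → Prop),
        ElemLocal ℓ Φ → GapRed k k' (F k') Φ → (⌊F k'⌋₊ : ℝ) * δ ≤ C := by
  have key : ∀ k' : ℕ, ∃ n₀ : ℕ, C < (⌊F k'⌋₊ : ℝ) * δ → ∀ n : ℕ, n₀ ≤ n →
      ∀ N M ℓ : ℕ, (N : ℝ) ≤ f k * (n : ℝ) ^ C' → (M : ℝ) ≤ f k * (n : ℝ) ^ C →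
      (ℓ : ℝ) ≤ f k * (n : ℝ) ^ (1 - δ) →
      ∀ Φ : (Fin n → Fin n → Prop) → (Fin N → Fin M → Prop), ElemLocal ℓ Φ →
        ¬ GapRed k k' (F k') Φ := by
    intro k'
    by_cases h : C < (⌊F k'⌋₊ : ℝ) * δ
    · obtain ⟨n₀, hn₀⟩ := asym_bound k k' hk (F k') (f k) C C' δ hδ
        (by have := hF k'; linarith) h
      exact ⟨n₀, fun _ => hn₀⟩
    · exact ⟨0, fun h' => absurd h' h⟩
  choose n₀ hn₀ using key
  refine ⟨(Finset.range (g k + 1)).sup n₀, fun n hn k' N M ℓ hk' hN hM hℓ Φ hloc hgap => ?_⟩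
  by_contra hcon
  push Not at hcon
  have h1 : n₀ k' ≤ (Finset.range (g k + 1)).sup n₀ :=
    Finset.le_sup (Finset.mem_range.2 (by omega))
  exact hn₀ k' hcon n (h1.trans hn) N M ℓ hN hM hℓ Φ hloc hgap

end Pool.Agent.Results.MP_91b64b_lc.LocalReductionBarrier
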