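import Pool.Agent.H78DS.BFinal

namespace Pool.Agent.Results.MP_91b64b_lc.SmallUniverse

open Pool.Agent.H78DS

/-- The gap problems `GapDS_F` and the exact set cover problems `SC_g` with small universe are equivalent under
bounded-error randomised fpt Turing reductions: (1) `GapDS_g` reduces to `SC_g`; (2) for every computable `F` some `SC_g`
has an fpt-reduction to `GapDS_F`; (3) all `GapDS_F` are hard for `k`-Dominating Set iff all `SC_g` are; (4) some `GapDS_F` is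
randomised fpt iff some `SC_g` is. -/
theorem result :
    (∀ g : ℕ → ℕ, Computable g → (∀ k, 1 ≤ g k) → BRed (GapDS (fun k => (g k : ℝ))) (SC g)) ∧
    (∀ F : ℕ → ℕ, Computable F → ∃ g : ℕ → ℕ, Computable g ∧ (∀ k, 1 ≤ g k) ∧
      FptRed (SC g) (GapDS (fun k => (F k : ℝ)))) ∧
    ((∀ F : ℕ → ℕ, Computable F → (∀ k, 1 ≤ F k) → BRed kDS (GapDS (fun k => (F k : ℝ)))) ↔
      ∀ g : ℕ → ℕ, Computable g → (∀ k, 1 ≤ g k) → BRed kDS (SC g)) ∧
    ((∃ F : ℕ → ℕ, Computable F ∧ (∀ k, 1 ≤ F k) ∧ InBPFPT (GapDS (fun k => (F k : ℝ)))) ↔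
      ∃ g : ℕ → ℕ, Computable g ∧ (∀ k, 1 ≤ g k) ∧ InBPFPT (SC g)) :=
  families

end Pool.Agent.Results.MP_91b64b_lc.SmallUniverse
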